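import Pool.Agent.Lib.MP_f11a48_ag.helper16.Defs

/-!
# Torsors of periods in coordinates

Complex points of closed `K`-subschemes of the `K`-scheme `Iso(M_dR, M_B ⊗ K)` for a
de Rham-Betti object `M = (K^ι, ℚ^ι, c)`.
-/

namespace Pool.Agent.Lib.MPf11a48.Tors

open Pool.Agent.Lib.MPf11a48.CM

variable {ι : Type} [Fintype ι] [DecidableEq ι]

/-- `T ⊆ GL_ι(ℂ)` is the set of complex points of a closed `K`-subscheme of `GL_ι`: the set of
common zeros in `GL_ι(ℂ)` of a set of polynomials in the matrix entries with coefficients in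
`K`. -/
def ClosedOver (K : IntermediateField ℚ ℂ) (T : Set (GL ι ℂ)) : Prop :=
  ∃ S : Set (MvPolynomial (ι × ι) K),
    T = {g | ∀ p ∈ S, MvPolynomial.aeval (fun ij : ι × ι => g.1 ij.1 ij.2) p = 0}

/-- `T` is the set of complex points of a `K`-subtorsor of `Iso(M_dR, M_B ⊗ K)`: a non-empty closed
`K`-subscheme with `a b⁻¹ d ∈ T` for all `a, b, d ∈ T` (i.e. a torsor under the group of all
`a b⁻¹`, `a, b ∈ T`). -/
structure IsTorsor (K : IntermediateField ℚ ℂ) (T : Set (GL ι ℂ)) : Prop where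
  closed : ClosedOver K T
  nonempty : T.Nonempty
  heap : ∀ a ∈ T, ∀ b ∈ T, ∀ d ∈ T, a * b⁻¹ * d ∈ T

/-- The (complex points of the) group `{a b⁻¹}` of a torsor `T`; it acts on `T` from the left,
i.e. it is a group of automorphisms of `M_B`. -/
def grp (T : Set (GL ι ℂ)) : Set (GL ι ℂ) := {g | ∃ a ∈ T, ∃ b ∈ T, g = a * b⁻¹}

/-- `Z_M`: the Zariski closure of the point `c` (over `K`). -/
def ZM (K : IntermediateField ℚ ℂ) (c : GL ι ℂ) : Set (GL ι ℂ) :=
  {f | ∀ T, ClosedOver K T → c ∈ T → f ∈ T}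

/-- `Ω_M`: the smallest `K`-subtorsor of `Iso(M_dR, M_B ⊗ K)` that contains the comparison
isomorphism `c`. -/
def OmegaM (K : IntermediateField ℚ ℂ) (c : GL ι ℂ) : Set (GL ι ℂ) :=
  {f | ∀ T, IsTorsor K T → c ∈ T → f ∈ T}

/-- The complex points of `G_dRB(M) = Aut^⊗(ω_B | ⟨M⟩)`: the automorphisms of `M_B ⊗ ℂ` that
respect (the Betti part of) every sub-object of every finite direct sum of tensor spaces. -/
def GdRB (K : IntermediateField ℚ ℂ) (c : GL ι ℂ) : Set (GL ι ℂ) :=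
  {g | ∀ (r : ℕ) (s : Fin r → ℕ × ℕ) (WdR : Submodule K (SIdx ι s → K))
    (WB : Submodule ℚ (SIdx ι s → ℚ)), IsSub K c s WdR WB →
      (spanC WB).map (act s g.1 g⁻¹.1) = spanC WB}

end Pool.Agent.Lib.MPf11a48.Tors
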