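import Pool.Agent.Lib.MP_f11a48_ag.helper4.Poly

/-! `Ω^dRB_M` is the smallest `K`-subtorsor containing `c_M` whose group is defined over `ℚ`. -/

namespace Pool.Agent.Lib.MPf11a48.Tors

open Pool.Agent.Lib.MPf11a48.CM MvPolynomial

variable {ι : Type} [Fintype ι] [DecidableEq ι] {K : IntermediateField ℚ ℂ}

/-! ### generalities on torsors -/

theorem mem_grp_iff {T : Set (GL ι ℂ)} (h : IsTorsor K T) {c : GL ι ℂ} (hc : c ∈ T)
    {g : GL ι ℂ} : g ∈ grp T ↔ g * c ∈ T := by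
  constructor
  · rintro ⟨a, ha, b, hb, rfl⟩
    exact h.heap a ha b hb c hc
  · intro hg
    exact ⟨g * c, hg, c, hc, by group⟩

theorem one_mem_grp {T : Set (GL ι ℂ)} (h : IsTorsor K T) : (1 : GL ι ℂ) ∈ grp T := by
  obtain ⟨c, hc⟩ := h.nonempty
  exact ⟨c, hc, c, hc, by group⟩

theorem mul_mem_grp {T : Set (GL ι ℂ)} (h : IsTorsor K T) {g g' : GL ι ℂ} (hg : g ∈ grp T)
    (hg' : g' ∈ grp T) : g * g' ∈ grp T := by
  obtain ⟨a, ha, b, hb, rfl⟩ := hg
  obtain ⟨a', ha', b', hb', rfl⟩ := hg'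
  exact ⟨a * b⁻¹ * a', h.heap a ha b hb a' ha', b', hb', by group⟩

theorem inv_mem_grp {T : Set (GL ι ℂ)} {g : GL ι ℂ} (hg : g ∈ grp T) : g⁻¹ ∈ grp T := by
  obtain ⟨a, ha, b, hb, rfl⟩ := hg
  exact ⟨b, hb, a, ha, by group⟩

/-- the group of a torsor as a subgroup -/
def grpS {T : Set (GL ι ℂ)} (h : IsTorsor K T) : Subgroup (GL ι ℂ) where
  carrier := grp T
  mul_mem' := mul_mem_grp h
  one_mem' := one_mem_grp h
  inv_mem' := inv_mem_grp

/-- the group of a `K`-torsor is defined over `K` -/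
theorem closedOver_grp {T : Set (GL ι ℂ)} (h : IsTorsor K T) : ClosedOver K (grp T) := by
  obtain ⟨c, hc⟩ := h.nonempty
  refine closedOver_of_stable K ?_ ?_
  · have : grp T = {g : GL ι ℂ | g * c ∈ T} := by
      ext g
      exact mem_grp_iff h hc
    rw [this]
    exact h.closed.closedC.mul_right c
  · rintro τ hτ _ ⟨a, ha, b, hb, rfl⟩
    exact ⟨tw τ a, h.closed.tw_mem hτ ha, tw τ b, h.closed.tw_mem hτ hb, by
      rw [map_mul, map_inv]⟩

/-- a coset `G c` of a subgroup defined over `K` is a `K`-torsor if it is closed over `K` -/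
theorem isTorsor_coset (G : Subgroup (GL ι ℂ)) {c : GL ι ℂ}
    (h : ClosedOver K {f : GL ι ℂ | f * c⁻¹ ∈ G}) : IsTorsor K {f : GL ι ℂ | f * c⁻¹ ∈ G} where
  closed := h
  nonempty := ⟨c, by simp [G.one_mem]⟩
  heap := by
    intro a ha b hb d hd
    have : a * b⁻¹ * d * c⁻¹ = (a * c⁻¹) * (b * c⁻¹)⁻¹ * (d * c⁻¹) := by group
    change a * b⁻¹ * d * c⁻¹ ∈ G
    rw [this]
    exact G.mul_mem (G.mul_mem ha (G.inv_mem hb)) hd

theorem grp_coset (G : Subgroup (GL ι ℂ)) {c : GL ι ℂ} :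
    grp {f : GL ι ℂ | f * c⁻¹ ∈ G} = (G : Set (GL ι ℂ)) := by
  ext g
  constructor
  · rintro ⟨a, ha, b, hb, rfl⟩
    have : a * b⁻¹ = (a * c⁻¹) * (b * c⁻¹)⁻¹ := by group
    rw [this]
    exact G.mul_mem ha (G.inv_mem hb)
  · intro hg
    refine ⟨g * c, ?_, c, ?_, by group⟩
    · change g * c * c⁻¹ ∈ G
      rw [mul_inv_cancel_right]
      exact hg
    · change c * c⁻¹ ∈ G
      rw [mul_inv_cancel]
      exact G.one_mem

/-! ### the smallest torsor `Ω_M` -/

theorem mem_OmegaM_self (K : IntermediateField ℚ ℂ) (c : GL ι ℂ) : c ∈ OmegaM K c :=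
  fun _ _ h => h

theorem closedOver_inter {X : Set (Set (GL ι ℂ))} (h : ∀ T ∈ X, ClosedOver K T) :
    ClosedOver K {f | ∀ T ∈ X, f ∈ T} := by
  choose S hS using h
  refine ⟨⋃ (T) (hT : T ∈ X), S T hT, ?_⟩
  ext g
  simp only [Set.mem_ofPred_eq, Set.mem_iUnion, forall_exists_index]
  constructor
  · intro hg p T hT hp
    have := hg T hT
    rw [hS T hT] at this
    exact this p hp
  · intro hg T hT
    rw [hS T hT]
    exact fun p hp => hg p T hT hp

theorem isTorsor_OmegaM (K : IntermediateField ℚ ℂ) (c : GL ι ℂ) : IsTorsor K (OmegaM K c) where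
  closed := by
    have := closedOver_inter (K := K) (X := {T : Set (GL ι ℂ) | IsTorsor K T ∧ c ∈ T})
      (fun T hT => hT.1.closed)
    have e : OmegaM K c = {f | ∀ T ∈ {T : Set (GL ι ℂ) | IsTorsor K T ∧ c ∈ T}, f ∈ T} := by
      ext f
      exact ⟨fun h T hT => h T hT.1 hT.2, fun h T h1 h2 => h T ⟨h1, h2⟩⟩
    rw [e]
    exact this
  nonempty := ⟨c, mem_OmegaM_self K c⟩
  heap := fun a ha b hb d hd T hT hc =>
    hT.heap a (ha T hT hc) b (hb T hT hc) d (hd T hT hc)

/-! ### `Ω^dRB_M` and `G_dRB(M)` -/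

theorem spanC_tw {J : Type} {W : Submodule K (J → K)} {τ : ℂ ≃+* ℂ} (hτ : FixesField K τ)
    {v : J → ℂ} (hv : v ∈ spanC W) : (fun j => τ (v j)) ∈ spanC W := by
  induction hv using Submodule.span_induction with
  | mem x hx =>
    obtain ⟨w, hw, rfl⟩ := hx
    have : (fun j => τ (algebraMap K ℂ (w j))) = fun j => algebraMap K ℂ (w j) := by
      funext j
      exact hτ _ (w j).2
    rw [this]
    exact Submodule.subset_span ⟨w, hw, rfl⟩
  | zero =>
    have : (fun j => τ ((0 : J → ℂ) j)) = 0 := by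
      funext j
      simp
    rw [this]
    exact Submodule.zero_mem _
  | add x y _ _ hx hy =>
    have : (fun j => τ ((x + y) j)) = (fun j => τ (x j)) + fun j => τ (y j) := by
      funext j
      simp
    rw [this]
    exact Submodule.add_mem _ hx hy
  | smul a x _ hx =>
    have : (fun j => τ ((a • x) j)) = τ a • fun j => τ (x j) := by
      funext j
      simp
    rw [this]
    exact Submodule.smul_mem _ _ hx

theorem spanC_twQ {J : Type} {W : Submodule ℚ (J → ℚ)} (τ : ℂ ≃+* ℂ)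
    {v : J → ℂ} (hv : v ∈ spanC W) : (fun j => τ (v j)) ∈ spanC W := by
  induction hv using Submodule.span_induction with
  | mem x hx =>
    obtain ⟨w, hw, rfl⟩ := hx
    have : (fun j => τ (algebraMap ℚ ℂ (w j))) = fun j => algebraMap ℚ ℂ (w j) := by
      funext j
      exact fixesField_bot τ _ (IntermediateField.algebraMap_mem _ _)
    rw [this]
    exact Submodule.subset_span ⟨w, hw, rfl⟩
  | zero =>
    have : (fun j => τ ((0 : J → ℂ) j)) = 0 := by
      funext j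
      simp
    rw [this]
    exact Submodule.zero_mem _
  | add x y _ _ hx hy =>
    have : (fun j => τ ((x + y) j)) = (fun j => τ (x j)) + fun j => τ (y j) := by
      funext j
      simp
    rw [this]
    exact Submodule.add_mem _ hx hy
  | smul a x _ hx =>
    have : (fun j => τ ((a • x) j)) = τ a • fun j => τ (x j) := by
      funext j
      simp
    rw [this]
    exact Submodule.smul_mem _ _ hx

theorem mem_OmegaDRB_self (K : IntermediateField ℚ ℂ) (c : GL ι ℂ) : c ∈ OmegaDRB K c :=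
  fun _ _ _ _ h => h

theorem mem_OmegaDRB_iff (K : IntermediateField ℚ ℂ) (c f : GL ι ℂ) :
    f ∈ OmegaDRB K c ↔ f * c⁻¹ ∈ GdRB K c := by
  have key : ∀ {r : ℕ} (s : Fin r → ℕ × ℕ) (A B : Submodule ℂ (SIdx ι s → ℂ)),
      A.map (ac s c) = B → (A.map (ac s f) = B ↔ B.map (ac s (f * c⁻¹)) = B) := by
    intro r s A B h
    rw [map_ac_mul, map_ac_inv s h]
  constructor
  · intro h r s WdR WB hsub
    exact (key s _ _ hsub).1 (h r s WdR WB hsub)
  · intro h r s WdR WB hsub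
    exact (key s _ _ hsub).2 (h r s WdR WB hsub)

/-- `G_dRB(M)` as a subgroup -/
def GdRBS (K : IntermediateField ℚ ℂ) (c : GL ι ℂ) : Subgroup (GL ι ℂ) where
  carrier := GdRB K c
  one_mem' := fun r s WdR WB _ => map_ac_one s _
  mul_mem' := by
    intro a b ha hb r s WdR WB hsub
    have h1 : (spanC WB).map (ac s a) = spanC WB := ha r s WdR WB hsub
    have h2 : (spanC WB).map (ac s b) = spanC WB := hb r s WdR WB hsub
    change (spanC WB).map (ac s (a * b)) = spanC WB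
    rw [map_ac_mul, h2, h1]
  inv_mem' := by
    intro a ha r s WdR WB hsub
    exact map_ac_inv s (ha r s WdR WB hsub)

theorem mem_GdRBS {c g : GL ι ℂ} : g ∈ GdRBS K c ↔ g ∈ GdRB K c := Iff.rfl

theorem finrank_eq_of_isSub {c : GL ι ℂ} {r : ℕ} {s : Fin r → ℕ × ℕ}
    {WdR : Submodule K (SIdx ι s → K)} {WB : Submodule ℚ (SIdx ι s → ℚ)}
    (h : IsSub K c s WdR WB) :
    Module.finrank ℂ (spanC WdR) = Module.finrank ℂ (spanC WB) := by
  have h' : (spanC WdR).map (ac s c) = spanC WB := h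
  rw [← h', finrank_map_ac]

theorem closedC_GdRB (K : IntermediateField ℚ ℂ) (c : GL ι ℂ) : ClosedC (GdRB K c) := by
  have : GdRB K c = ⋂ (r : ℕ), ⋂ (s : Fin r → ℕ × ℕ), ⋂ (WdR : Submodule K (SIdx ι s → K)),
      ⋂ (WB : Submodule ℚ (SIdx ι s → ℚ)), ⋂ (_ : IsSub K c s WdR WB),
        {g : GL ι ℂ | (spanC WB).map (ac s g) = spanC WB} := by
    ext g
    simp only [Set.mem_iInter]
    rfl
  rw [this]
  exact closedC_iInter fun r => closedC_iInter fun s => closedC_iInter fun WdR =>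
    closedC_iInter fun WB => closedC_iInter fun _ => closedC_map_eq s rfl

theorem GdRB_tw {c g : GL ι ℂ} (τ : ℂ ≃+* ℂ) (hg : g ∈ GdRB K c) : tw τ g ∈ GdRB K c := by
  intro r s WdR WB hsub
  have h : (spanC WB).map (ac s g) = spanC WB := hg r s WdR WB hsub
  change (spanC WB).map (ac s (tw τ g)) = spanC WB
  rw [map_eq_iff s _ rfl]
  rw [map_eq_iff s _ rfl] at h
  intro v hv
  have h1 := spanC_twQ τ (h _ (spanC_twQ τ.symm hv))
  rw [← ac_tw] at h1
  simpa using h1

theorem closedOver_GdRB (K : IntermediateField ℚ ℂ) (c : GL ι ℂ) : ClosedOver ⊥ (GdRB K c) :=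
  closedOver_of_stable ⊥ (closedC_GdRB K c) fun τ _ _ hg => GdRB_tw τ hg

theorem OmegaDRB_tw {c f : GL ι ℂ} {τ : ℂ ≃+* ℂ} (hτ : FixesField K τ)
    (hf : f ∈ OmegaDRB K c) : tw τ f ∈ OmegaDRB K c := by
  intro r s WdR WB hsub
  have hd := finrank_eq_of_isSub hsub
  have h : (spanC WdR).map (ac s f) = spanC WB := hf r s WdR WB hsub
  change (spanC WdR).map (ac s (tw τ f)) = spanC WB
  rw [map_eq_iff s _ hd]
  rw [map_eq_iff s _ hd] at h
  intro v hv
  have h1 := spanC_twQ τ (h _ (spanC_tw hτ.symm hv))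
  rw [← ac_tw] at h1
  simpa using h1

theorem OmegaDRB_eq (K : IntermediateField ℚ ℂ) (c : GL ι ℂ) :
    OmegaDRB K c = {f | f * c⁻¹ ∈ GdRBS K c} := by
  ext f
  exact mem_OmegaDRB_iff K c f

theorem closedOver_OmegaDRB (K : IntermediateField ℚ ℂ) (c : GL ι ℂ) :
    ClosedOver K (OmegaDRB K c) := by
  refine closedOver_of_stable K ?_ fun τ hτ _ hg => OmegaDRB_tw hτ hg
  have := (closedC_GdRB K c).mul_right c⁻¹
  rw [OmegaDRB_eq]
  exact this

theorem isTorsor_OmegaDRB (K : IntermediateField ℚ ℂ) (c : GL ι ℂ) :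
    IsTorsor K (OmegaDRB K c) := by
  rw [OmegaDRB_eq]
  apply isTorsor_coset
  rw [← OmegaDRB_eq]
  exact closedOver_OmegaDRB K c

theorem grp_OmegaDRB (K : IntermediateField ℚ ℂ) (c : GL ι ℂ) :
    grp (OmegaDRB K c) = GdRB K c := by
  rw [OmegaDRB_eq, grp_coset]
  rfl

/-! ### minimality -/

/-- The main theorem: `Ω^dRB_M` is contained in every `K`-torsor containing `c` whose group is
defined over `ℚ`. -/
theorem OmegaDRB_subset {T : Set (GL ι ℂ)} (hT : IsTorsor K T) {c : GL ι ℂ} (hc : c ∈ T)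
    (hQ : ClosedOver ⊥ (grp T)) : OmegaDRB K c ⊆ T := by
  intro f hf
  have hfg : f * c⁻¹ ∈ grp T := by
    obtain ⟨S, hS⟩ := hQ.closedC
    rw [hS]
    intro p hp
    obtain ⟨r, k, J, t, ht⟩ := exists_phi p
    -- the space of tensors whose polynomial function vanishes on the group
    let N : Submodule ℂ (SIdx ι (sh k) → ℂ) :=
      { carrier := {t | ∀ x ∈ grp T, phi k J x.1 t = 0}
        add_mem' := by
          intro a b ha hb x hx
          rw [phi_add, ha x hx, hb x hx, add_zero]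
        zero_mem' := by
          intro x _
          exact phi_zero k J _
        smul_mem' := by
          intro a t ht x hx
          rw [phi_smul, ht x hx, mul_zero] }
    have hNdef : ∀ u, u ∈ N ↔ ∀ x ∈ grp T, phi k J x.1 u = 0 := fun u => Iff.rfl
    have htN : t ∈ N := by
      intro x hx
      rw [ht]
      rw [hS] at hx
      exact hx p hp
    have hNst : ∀ τ : ℂ ≃+* ℂ, ∀ v ∈ N, (fun j => τ (v j)) ∈ N := by
      intro τ v hv x hx
      have h1 := hv _ (hQ.tw_mem (fixesField_bot τ.symm) hx)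
      have h2 := phi_tw k J τ (tw τ.symm x) v
      rw [tw_tw_symm, h1, map_zero] at h2
      exact h2
    obtain ⟨WB, hWB⟩ := descentQ N hNst
    let N' : Submodule ℂ (SIdx ι (sh k) → ℂ) := N.comap (ac (sh k) c)
    have hN'def : ∀ u, u ∈ N' ↔ ∀ x ∈ grp T, phi k J (c⁻¹ * x).1 u = 0 := by
      intro u
      change ac (sh k) c u ∈ N ↔ _
      rw [hNdef]
      simp only [phi_ac]
    have hN'st : ∀ τ : ℂ ≃+* ℂ, FixesField K τ → ∀ v ∈ N', (fun j => τ (v j)) ∈ N' := by
      intro τ hτ v hv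
      rw [hN'def] at hv ⊢
      intro x hx
      have hx' : c * (tw τ.symm c)⁻¹ * tw τ.symm x ∈ grp T :=
        mul_mem_grp hT ⟨c, hc, _, hT.closed.tw_mem hτ.symm hc, rfl⟩
          (hQ.tw_mem (fixesField_bot τ.symm) hx)
      have h1 := hv _ hx'
      have h2 := phi_tw k J τ (c⁻¹ * (c * (tw τ.symm c)⁻¹ * tw τ.symm x)) v
      rw [h1, map_zero] at h2
      have h3 : tw τ (c⁻¹ * (c * (tw τ.symm c)⁻¹ * tw τ.symm x)) = c⁻¹ * x := by
        have : c⁻¹ * (c * (tw τ.symm c)⁻¹ * tw τ.symm x) = (tw τ.symm c)⁻¹ * tw τ.symm x := by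
          group
        rw [this, map_mul, map_inv, tw_tw_symm, tw_tw_symm]
      rw [h3] at h2
      exact h2
    obtain ⟨WdR, hWdR⟩ := descent K N' hN'st
    have hmap : N'.map (ac (sh k) c) = N := by
      apply le_antisymm
      · rintro _ ⟨v, hv, rfl⟩
        exact hv
      · intro v hv
        refine ⟨ac (sh k) c⁻¹ v, ?_, ac_cancel_inv _ _ _⟩
        change ac (sh k) c (ac (sh k) c⁻¹ v) ∈ N
        rw [ac_cancel_inv]
        exact hv
    have hsub : IsSub K c (sh k) WdR WB := by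
      change (spanC WdR).map (ac (sh k) c) = spanC WB
      rw [hWdR, hWB, hmap]
    have hfN : N'.map (ac (sh k) f) = N := by
      have := hf r (sh k) WdR WB hsub
      rw [hWdR, hWB] at this
      exact this
    -- `N` is stable under `g = f c⁻¹`
    have hgN : N.map (ac (sh k) (f * c⁻¹)) = N := by
      rw [map_ac_mul, map_ac_inv (sh k) hmap, hfN]
    have htN' := htN
    rw [← hgN] at htN'
    obtain ⟨n, hn, hnt⟩ := htN'
    change aeval (ent (f * c⁻¹)) p = 0
    rw [← ht, ← hnt, phi_ac, inv_mul_cancel]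
    exact hn 1 (one_mem_grp hT)
  exact (by
    have := (mem_grp_iff hT hc).1 hfg
    rwa [inv_mul_cancel_right] at this)

/-- `G_dRB(M)` is contained in every subgroup defined over `ℚ` that contains the group of
`Ω_M`. -/
theorem GdRB_subset (c : GL ι ℂ) (G : Subgroup (GL ι ℂ)) (hG : ClosedOver ⊥ (G : Set (GL ι ℂ)))
    (hH : grp (OmegaM K c) ⊆ G) : GdRB K c ⊆ G := by
  have hcl : ClosedOver K {f : GL ι ℂ | f * c⁻¹ ∈ G} := by
    refine closedOver_of_stable K (hG.closedC.mul_right c⁻¹) ?_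
    intro τ hτ f hf
    change tw τ f * c⁻¹ ∈ G
    have h1 : tw τ (f * c⁻¹) ∈ G := hG.tw_mem (fixesField_bot τ) hf
    have h2 : tw τ c * c⁻¹ ∈ G := hH ⟨tw τ c,
      (isTorsor_OmegaM K c).closed.tw_mem hτ (mem_OmegaM_self K c), c, mem_OmegaM_self K c, rfl⟩
    have h3 := G.mul_mem h1 h2
    rw [map_mul, map_inv] at h3
    have : tw τ f * (tw τ c)⁻¹ * (tw τ c * c⁻¹) = tw τ f * c⁻¹ := by group
    rw [this] at h3
    exact h3
  have hT := isTorsor_coset G hcl
  have hc : c ∈ {f : GL ι ℂ | f * c⁻¹ ∈ G} := by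
    change c * c⁻¹ ∈ G
    rw [mul_inv_cancel]
    exact G.one_mem
  have hsub := OmegaDRB_subset hT hc (by rw [grp_coset]; exact hG)
  intro g hg
  have h1 : g * c ∈ OmegaDRB K c := by
    rw [mem_OmegaDRB_iff, mul_inv_cancel_right]
    exact hg
  have h2 : g * c * c⁻¹ ∈ G := hsub h1
  rwa [mul_inv_cancel_right] at h2

theorem OmegaM_subset_OmegaDRB (K : IntermediateField ℚ ℂ) (c : GL ι ℂ) :
    OmegaM K c ⊆ OmegaDRB K c :=
  fun _ hf => hf _ (isTorsor_OmegaDRB K c) (mem_OmegaDRB_self K c)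

theorem OmegaM_eq_OmegaDRB_iff (K : IntermediateField ℚ ℂ) (c : GL ι ℂ) :
    OmegaM K c = OmegaDRB K c ↔ ClosedOver ⊥ (grp (OmegaM K c)) := by
  constructor
  · intro h
    rw [h, grp_OmegaDRB]
    exact closedOver_GdRB K c
  · intro h
    exact Set.Subset.antisymm (OmegaM_subset_OmegaDRB K c)
      (OmegaDRB_subset (isTorsor_OmegaM K c) (mem_OmegaM_self K c) h)

theorem OmegaM_eq_OmegaDRB (c : GL ι ℂ) :
    OmegaM (⊥ : IntermediateField ℚ ℂ) c = OmegaDRB ⊥ c :=
  (OmegaM_eq_OmegaDRB_iff ⊥ c).2 (closedOver_grp (isTorsor_OmegaM ⊥ c))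

end Pool.Agent.Lib.MPf11a48.Tors
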