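import Pool.Agent.Lib.TranscendentalPi
import Pool.Agent.Lib.MP_f11a48_ag.helper16.Defs

/-! Real numbers `x, y` with `x² + α y² = 2π`, algebraically independent over `Qbar`. -/

namespace Pool.Agent.Lib.MPf11a48.Tors

open Pool.Agent.Lib.MPf11a48.CM MvPolynomial

/-- exchange in rank two -/
theorem algInd_exchange {F : Type} [Field F] [Algebra F ℂ] {x y p t : ℂ} (hpt : p ≠ t)
    (h : AlgebraicIndepOn F id ({p, t} : Set ℂ))
    (hp : IsAlgebraic (Algebra.adjoin F ({x, y} : Set ℂ)) p)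
    (ht : IsAlgebraic (Algebra.adjoin F ({x, y} : Set ℂ)) t) :
    x ≠ y ∧ AlgebraicIndepOn F id ({x, y} : Set ℂ) := by
  let M := AlgebraicIndependent.matroid F ℂ
  have hcl : ({p, t} : Set ℂ) ⊆ M.closure {x, y} := by
    rw [AlgebraicIndependent.matroid_closure_eq]
    rintro z (rfl | rfl)
    · exact hp
    · exact ht
  have hind : M.Indep {p, t} := AlgebraicIndependent.matroid_indep_iff.2 h
  have h2 : (2 : ℕ∞) ≤ M.eRk {x, y} := by
    calc (2 : ℕ∞) = ({p, t} : Set ℂ).encard := (Set.encard_pair hpt).symm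
      _ = M.eRk {p, t} := hind.eRk_eq_encard.symm
      _ ≤ M.eRk (M.closure {x, y}) := M.eRk_mono hcl
      _ = M.eRk {x, y} := M.eRk_closure_eq _
  have hne : x ≠ y := by
    rintro rfl
    have : M.eRk {x, x} ≤ 1 := by
      rw [Set.pair_eq_singleton]
      exact (M.eRk_le_encard _).trans (by rw [Set.encard_singleton])
    exact absurd (h2.trans this) (by decide)
  refine ⟨hne, AlgebraicIndependent.matroid_indep_iff.1 ?_⟩
  rw [Matroid.indep_iff_eRk_eq_encard_of_finite (Set.toFinite _)]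
  apply le_antisymm (M.eRk_le_encard _)
  rw [Set.encard_pair hne]
  exact h2

theorem countable_Qbar : Countable Qbar := by
  have := Algebraic.countable ℚ ℂ
  have h : {x : ℂ | IsAlgebraic ℚ x} = (Qbar : Set ℂ) := by
    ext z
    exact mem_algebraicClosure_iff.symm
  rw [h] at this
  exact this.to_subtype

theorem transcendental_pi_Qbar : Transcendental Qbar (Real.pi : ℂ) := by
  intro h
  have : Algebra.IsAlgebraic ℚ Qbar := inferInstance
  exact TranscendentalPi.transcendental_pi (IsAlgebraic.restrictScalars ℚ h)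

theorem exists_generic_real {ε : ℝ} (hε : 0 < ε) :
    ∃ t : ℝ, 0 < t ∧ t < ε ∧ Transcendental (Algebra.adjoin Qbar ({(Real.pi : ℂ)} : Set ℂ))
      (t : ℂ) := by
  have := countable_Qbar
  have hc : Countable (Algebra.adjoin Qbar ({(Real.pi : ℂ)} : Set ℂ)) := by
    have hs : Function.Surjective (Polynomial.aeval (R := Qbar) (Real.pi : ℂ)).rangeRestrict :=
      AlgHom.rangeRestrict_surjective _
    have hP : Countable (Polynomial Qbar) := Cardinal.mk_le_aleph0_iff.1
      (Polynomial.cardinalMk_le_max.trans (max_le Cardinal.mk_le_aleph0 le_rfl))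
    have : Countable (Polynomial.aeval (R := Qbar) (Real.pi : ℂ)).range := hs.countable
    rw [Algebra.adjoin_singleton_eq_range_aeval]
    exact this
  have hcount := Algebraic.countable (Algebra.adjoin Qbar ({(Real.pi : ℂ)} : Set ℂ)) ℂ
  have hcount' : {t : ℝ | IsAlgebraic (Algebra.adjoin Qbar ({(Real.pi : ℂ)} : Set ℂ))
      (t : ℂ)}.Countable := hcount.preimage Complex.ofReal_injective
  by_contra hno
  push Not at hno
  have hsub : Set.Ioo 0 ε ⊆ {t : ℝ | IsAlgebraic (Algebra.adjoin Qbar ({(Real.pi : ℂ)} : Set ℂ))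
      (t : ℂ)} := by
    intro t ht
    by_contra hnt
    exact hno t ht.1 ht.2 hnt
  exact (Cardinal.Real.Ioo_countable_iff.1 (hcount'.mono hsub)).not_gt hε

theorem exists_xy (α : ℂ) (hα : α ∈ Qbar) : ∃ x y : ℂ, ∃ t : ℝ, 0 < t ∧ x ≠ 0 ∧ y = t * x ∧
    x ^ 2 + α * y ^ 2 = 2 * Real.pi ∧
    ((starRingEnd ℂ) α = α → (starRingEnd ℂ) x = x ∧ (starRingEnd ℂ) y = y) ∧
    AlgebraicIndependent Qbar ![x, y] := by
  have hε : (0 : ℝ) < 1 / (‖α‖ + 1) ∧ (1 : ℝ) / (‖α‖ + 1) ≤ 1 := by
    have : 0 ≤ ‖α‖ := norm_nonneg α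
    constructor
    · positivity
    · rw [div_le_one (by positivity)]
      linarith
  obtain ⟨t, ht0, ht1, htr⟩ := exists_generic_real hε.1
  have hnorm : ‖α * (t : ℂ) ^ 2‖ < 1 := by
    rw [norm_mul, norm_pow, Complex.norm_real, Real.norm_of_nonneg ht0.le]
    have h1 : t < 1 := lt_of_lt_of_le ht1 hε.2
    have h2 : t ^ 2 ≤ t := by nlinarith
    have h3 : t * (‖α‖ + 1) < 1 := by
      have := (lt_div_iff₀ (by positivity : (0 : ℝ) < ‖α‖ + 1)).1 ht1
      exact this
    nlinarith [norm_nonneg α]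
  have hden : 1 + α * (t : ℂ) ^ 2 ≠ 0 := by
    intro h0
    have : α * (t : ℂ) ^ 2 = -1 := by linear_combination h0
    rw [this, norm_neg, norm_one] at hnorm
    exact lt_irrefl _ hnorm
  have hpi : (Real.pi : ℂ) ≠ 0 := by exact_mod_cast Real.pi_ne_zero
  -- the square root
  have hx : ∃ x : ℂ, x ^ 2 = 2 * Real.pi / (1 + α * (t : ℂ) ^ 2) ∧
      ((starRingEnd ℂ) α = α → (starRingEnd ℂ) x = x) := by
    by_cases hreal : (starRingEnd ℂ) α = α
    · obtain ⟨a, ha⟩ := Complex.conj_eq_iff_real.1 hreal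
      have hpos : 0 < 1 + a * t ^ 2 := by
        have h1 : ‖α * (t : ℂ) ^ 2‖ = |a * t ^ 2| := by
          rw [ha, ← Complex.ofReal_pow, ← Complex.ofReal_mul, Complex.norm_real, Real.norm_eq_abs]
        rw [h1] at hnorm
        linarith [(abs_lt.1 hnorm).1]
      refine ⟨(Real.sqrt (2 * Real.pi / (1 + a * t ^ 2)) : ℝ), ?_, fun _ => Complex.conj_ofReal _⟩
      rw [← Complex.ofReal_pow, Real.sq_sqrt (by positivity), ha]
      push_cast
      ring
    · obtain ⟨x, hx⟩ := IsAlgClosed.exists_pow_nat_eq (2 * Real.pi / (1 + α * (t : ℂ) ^ 2))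
        (n := 2) two_pos
      exact ⟨x, hx, fun h => absurd h hreal⟩
  obtain ⟨x, hx2, hxr⟩ := hx
  have hx0 : x ≠ 0 := by
    rintro rfl
    rw [zero_pow two_ne_zero] at hx2
    have : (2 : ℂ) * Real.pi / (1 + α * (t : ℂ) ^ 2) ≠ 0 :=
      div_ne_zero (mul_ne_zero two_ne_zero hpi) hden
    exact this hx2.symm
  have hxy : x ^ 2 + α * (t * x) ^ 2 = 2 * Real.pi := by
    have : x ^ 2 + α * (t * x) ^ 2 = x ^ 2 * (1 + α * (t : ℂ) ^ 2) := by ring
    rw [this, hx2, div_mul_cancel₀ _ hden]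
  refine ⟨x, t * x, t, ht0, hx0, rfl, hxy, ?_, ?_⟩
  · intro h
    refine ⟨hxr h, ?_⟩
    rw [map_mul, Complex.conj_ofReal, hxr h]
  · -- algebraic independence
    have hpt : (t : ℂ) ≠ Real.pi := by
      intro h
      apply htr
      rw [h]
      exact isAlgebraic_algebraMap (⟨Real.pi, Algebra.subset_adjoin rfl⟩ :
        Algebra.adjoin Qbar ({(Real.pi : ℂ)} : Set ℂ))
    have hind : AlgebraicIndepOn Qbar id ({(t : ℂ), (Real.pi : ℂ)} : Set ℂ) := by
      rw [AlgebraicIndepOn.insert_iff (by simpa using hpt)]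
      refine ⟨?_, ?_⟩
      · exact algebraicIndependent_unique_type_iff.2 transcendental_pi_Qbar
      · rw [Set.image_id]
        exact htr
    have hxm : IsAlgebraic (Algebra.adjoin Qbar ({x, ↑t * x} : Set ℂ)) x :=
      isAlgebraic_algebraMap (⟨x, Algebra.subset_adjoin (Or.inl rfl)⟩ :
        Algebra.adjoin Qbar ({x, ↑t * x} : Set ℂ))
    have hym : IsAlgebraic (Algebra.adjoin Qbar ({x, ↑t * x} : Set ℂ)) (t * x) :=
      isAlgebraic_algebraMap (⟨t * x, Algebra.subset_adjoin (Or.inr rfl)⟩ :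
        Algebra.adjoin Qbar ({x, ↑t * x} : Set ℂ))
    have hbase : ∀ z ∈ Qbar, IsAlgebraic (Algebra.adjoin Qbar ({x, ↑t * x} : Set ℂ)) z := by
      intro z hz
      exact isAlgebraic_algebraMap (algebraMap Qbar
        (Algebra.adjoin Qbar ({x, ↑t * x} : Set ℂ)) ⟨z, hz⟩)
    have htm : IsAlgebraic (Algebra.adjoin Qbar ({x, ↑t * x} : Set ℂ)) (t : ℂ) := by
      have h := hym.mul hxm.inv
      have e : (t : ℂ) * x * x⁻¹ = t := by field_simp
      rwa [e] at h
    have hpm : IsAlgebraic (Algebra.adjoin Qbar ({x, ↑t * x} : Set ℂ)) (Real.pi : ℂ) := by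
      have : (Real.pi : ℂ) = (x ^ 2 + α * (t * x) ^ 2) * (1 / 2) := by
        rw [hxy]
        ring
      rw [this]
      refine IsAlgebraic.mul (IsAlgebraic.add (hxm.pow 2) ((hbase α hα).mul (hym.pow 2)))
        (hbase _ ?_)
      have : (1 / 2 : ℂ) = algebraMap ℚ ℂ (1 / 2) := by simp
      rw [this]
      exact IntermediateField.algebraMap_mem _ _
    obtain ⟨hne, hi⟩ := algInd_exchange hpt hind htm hpm
    have hinj : Function.Injective ![x, ↑t * x] := by
      intro i j hij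
      fin_cases i <;> fin_cases j <;> simp_all
    refine AlgebraicIndependent.of_subtype_range hinj ?_
    have hr : Set.range ![x, ↑t * x] = {x, ↑t * x} := by
      simp [Matrix.range_cons, Matrix.range_empty, Set.pair_comm]
    rw [hr]
    exact hi

end Pool.Agent.Lib.MPf11a48.Tors
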