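import Mathlib

/-! The fixed field of `Aut(ℂ / K)` is `K`, for every subfield `K` of `ℂ`. -/

namespace Pool.Agent.Lib.MPf11a48.Tors

open MvPolynomial

theorem extend_equiv {F : Type} [Field F] [Algebra F ℂ] {κ : Type} {v : κ → ℂ}
    (hv : IsTranscendenceBasis F v) (φ : MvPolynomial κ F ≃+* MvPolynomial κ F) :
    ∃ τ : ℂ ≃+* ℂ, ∀ p : MvPolynomial κ F, τ (aeval v p) = aeval v (φ p) := by
  let _ : IsAlgClosure (Algebra.adjoin F (Set.range v)) ℂ :=
    IsAlgClosed.isAlgClosure_of_transcendence_basis v hv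
  let e : Algebra.adjoin F (Set.range v) ≃+* Algebra.adjoin F (Set.range v) :=
    (hv.1.aevalEquiv.symm.toRingEquiv.trans φ).trans hv.1.aevalEquiv.toRingEquiv
  refine ⟨IsAlgClosure.equivOfEquiv ℂ ℂ e, fun p => ?_⟩
  have h1 : (aeval v p : ℂ) = algebraMap (Algebra.adjoin F (Set.range v)) ℂ
      (hv.1.aevalEquiv p) := by
    rw [AlgebraicIndependent.algebraMap_aevalEquiv]
  rw [h1, IsAlgClosure.equivOfEquiv_algebraMap]
  have h2 : e (hv.1.aevalEquiv p) = hv.1.aevalEquiv (φ p) := by
    simp [e]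
  rw [h2, AlgebraicIndependent.algebraMap_aevalEquiv]

theorem exists_aut_ne (K : IntermediateField ℚ ℂ) {x : ℂ} (hx : x ∉ K) :
    ∃ τ : ℂ ≃+* ℂ, (∀ y ∈ K, τ y = y) ∧ τ x ≠ x := by
  classical
  by_cases hal : x ∈ algebraicClosure K ℂ
  · -- algebraic case
    let Kb := algebraicClosure K ℂ
    obtain ⟨s, hs⟩ := exists_isTranscendenceBasis Kb ℂ
    have hgal : IsGalois K Kb := inferInstance
    have hnot : (⟨x, hal⟩ : Kb) ∉ Set.range (algebraMap K Kb) := by
      rintro ⟨y, hy⟩
      have : (y : ℂ) = x := congrArg Subtype.val hy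
      exact hx (this ▸ y.2)
    rw [InfiniteGalois.mem_range_algebraMap_iff_fixed] at hnot
    push Not at hnot
    obtain ⟨f, hf⟩ := hnot
    obtain ⟨τ, hτ⟩ := extend_equiv hs (MvPolynomial.mapEquiv s f.toRingEquiv)
    have hC : ∀ y : Kb, τ (y : ℂ) = (f y : ℂ) := by
      intro y
      have := hτ (C y)
      simpa using this
    refine ⟨τ, fun y hy => ?_, fun h => hf ?_⟩
    · have h1 := hC (algebraMap K Kb ⟨y, hy⟩)
      rw [f.commutes] at h1
      exact h1
    · apply Subtype.ext
      rw [← hC]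
      exact h
  · let Kb := algebraicClosure K ℂ
    have htr : Transcendental Kb x := by
      intro halg
      apply hal
      have : Algebra.IsAlgebraic K Kb := inferInstance
      exact (isAlgebraic_iff_isIntegral.1 (IsAlgebraic.restrictScalars K halg))
    have hind : AlgebraicIndepOn Kb id ({x} : Set ℂ) := by
      exact algebraicIndependent_unique_type_iff.2 htr
    obtain ⟨t, hst, ht⟩ := exists_isTranscendenceBasis_superset hind
    have hx' : x ∈ t := hst rfl
    let φ : MvPolynomial t Kb ≃ₐ[Kb] MvPolynomial t Kb :=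
      AlgEquiv.ofAlgHom (aeval fun i => -X i) (aeval fun i => -X i)
        (by ext i; simp) (by ext i; simp)
    obtain ⟨τ, hτ⟩ := extend_equiv ht φ.toRingEquiv
    refine ⟨τ, fun y hy => ?_, fun h => ?_⟩
    · have := hτ (C (⟨y, (algebraMap K Kb ⟨y, hy⟩).2⟩ : Kb))
      simpa [φ] using this
    · have h1 := hτ (X ⟨x, hx'⟩)
      have h2 : τ x = -x := by simpa [φ] using h1
      rw [h2] at h
      have h0 : x = 0 := by
        have := h
        rw [neg_eq_iff_add_eq_zero, ← two_mul] at this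
        simpa using this
      exact hx (h0 ▸ zero_mem K)

end Pool.Agent.Lib.MPf11a48.Tors
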