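import Pool.Agent.Lib.MP_f11a48_ag.helper16.Pivot
import Pool.Agent.Lib.MP_f11a48_ag.helper16.Tens
import Pool.Agent.Lib.MP_f11a48_ag.helper4.FixedField

/-! Galois descent for subspaces of `ℂ^J` stable under `Aut(ℂ / K)`. -/

namespace Pool.Agent.Lib.MPf11a48.Tors

open Pool.Agent.Lib.MPf11a48.CM

/-- `τ` is the identity on `K`. -/
def FixesField (K : IntermediateField ℚ ℂ) (τ : ℂ ≃+* ℂ) : Prop := ∀ y ∈ K, τ y = y

theorem FixesField.symm {K : IntermediateField ℚ ℂ} {τ : ℂ ≃+* ℂ} (h : FixesField K τ) :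
    FixesField K τ.symm := fun y hy => by rw [RingEquiv.symm_apply_eq, h y hy]

theorem fixesField_bot (τ : ℂ ≃+* ℂ) : FixesField ⊥ τ := by
  intro y hy
  obtain ⟨q, rfl⟩ := IntermediateField.mem_bot.1 hy
  change τ.toRingHom (algebraMap ℚ ℂ q) = _
  rw [← RingHom.comp_apply]
  exact congrFun (congrArg _ (Subsingleton.elim _ _)) q

theorem mem_of_fixed {K : IntermediateField ℚ ℂ} {x : ℂ}
    (h : ∀ τ : ℂ ≃+* ℂ, FixesField K τ → τ x = x) : x ∈ K := by
  by_contra hx
  obtain ⟨τ, h1, h2⟩ := exists_aut_ne K hx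
  exact h2 (h τ h1)

theorem descent_aux {J : Type} [Fintype J] (K : IntermediateField ℚ ℂ)
    (N : Submodule ℂ (J → ℂ))
    (hN : ∀ τ : ℂ ≃+* ℂ, FixesField K τ → ∀ v ∈ N, (fun j => τ (v j)) ∈ N) :
    ∃ (κ : Type) (_ : Fintype κ) (a : κ → J) (w : κ → (J → ℂ)),
      (∀ p, w p ∈ N) ∧ (∀ p j, w p j ∈ K) ∧ (∀ v ∈ N, v = ∑ p, v (a p) • w p) := by
  obtain ⟨κ, _, _, a, w, hwN, hwa, hv⟩ := exists_pivot N
  refine ⟨κ, inferInstance, a, w, hwN, fun p j => mem_of_fixed fun τ hτ => ?_, hv⟩
  have h1 := hv _ (hN τ hτ _ (hwN p))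
  have h2 : (∑ p', τ (w p (a p')) • w p') = w p := by
    simp only [hwa]
    rw [Finset.sum_eq_single p]
    · simp
    · intro b _ hb
      rw [if_neg (Ne.symm hb)]
      simp
    · intro h
      exact absurd (Finset.mem_univ _) h
  rw [h2] at h1
  exact congrFun h1 j

/-- a subspace of `ℂ^J` stable under `Aut(ℂ / K)` is spanned by vectors with coordinates in `K` -/
theorem descent {J : Type} [Fintype J] (K : IntermediateField ℚ ℂ) (N : Submodule ℂ (J → ℂ))
    (hN : ∀ τ : ℂ ≃+* ℂ, FixesField K τ → ∀ v ∈ N, (fun j => τ (v j)) ∈ N) :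
    ∃ W : Submodule K (J → K), spanC W = N := by
  obtain ⟨κ, _, a, w, hwN, hwK, hv⟩ := descent_aux K N hN
  refine ⟨Submodule.span K (Set.range fun p : κ => fun j => (⟨w p j, hwK p j⟩ : K)), ?_⟩
  apply le_antisymm
  · refine Submodule.span_le.2 ?_
    rintro _ ⟨u, hu, rfl⟩
    induction hu using Submodule.span_induction with
    | mem x hx =>
      obtain ⟨p, rfl⟩ := hx
      exact hwN p
    | zero =>
      have : (fun j : J => algebraMap K ℂ ((0 : J → K) j)) = 0 := by
        funext j
        simp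
      rw [this]
      exact N.zero_mem
    | add x y _ _ hx hy =>
      have : (fun j : J => algebraMap K ℂ ((x + y) j)) =
          (fun j => algebraMap K ℂ (x j)) + fun j => algebraMap K ℂ (y j) := by
        funext j
        simp
      rw [this]
      exact N.add_mem hx hy
    | smul c x _ hx =>
      have : (fun j : J => algebraMap K ℂ ((c • x) j)) =
          algebraMap K ℂ c • fun j => algebraMap K ℂ (x j) := by
        funext j
        simp
      rw [this]
      exact N.smul_mem _ hx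
  · intro v hvN
    rw [hv v hvN]
    refine Submodule.sum_mem _ fun p _ => Submodule.smul_mem _ _ (Submodule.subset_span ?_)
    exact ⟨_, Submodule.subset_span ⟨p, rfl⟩, rfl⟩

/-- a subspace of `ℂ^J` stable under `Aut(ℂ)` is spanned by rational vectors -/
theorem descentQ {J : Type} [Fintype J] (N : Submodule ℂ (J → ℂ))
    (hN : ∀ τ : ℂ ≃+* ℂ, ∀ v ∈ N, (fun j => τ (v j)) ∈ N) :
    ∃ W : Submodule ℚ (J → ℚ), spanC W = N := by
  obtain ⟨κ, _, a, w, hwN, hwK, hv⟩ := descent_aux ⊥ N (fun τ _ => hN τ)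
  have hq : ∀ p j, ∃ q : ℚ, algebraMap ℚ ℂ q = w p j := fun p j =>
    IntermediateField.mem_bot.1 (hwK p j)
  choose q hq using hq
  refine ⟨Submodule.span ℚ (Set.range q), ?_⟩
  apply le_antisymm
  · refine Submodule.span_le.2 ?_
    rintro _ ⟨u, hu, rfl⟩
    induction hu using Submodule.span_induction with
    | mem x hx =>
      obtain ⟨p, rfl⟩ := hx
      simp only [hq]
      exact hwN p
    | zero =>
      have : (fun j : J => algebraMap ℚ ℂ ((0 : J → ℚ) j)) = 0 := by
        funext j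
        simp
      rw [this]
      exact N.zero_mem
    | add x y _ _ hx hy =>
      have : (fun j : J => algebraMap ℚ ℂ ((x + y) j)) =
          (fun j => algebraMap ℚ ℂ (x j)) + fun j => algebraMap ℚ ℂ (y j) := by
        funext j
        simp
      rw [this]
      exact N.add_mem hx hy
    | smul c x _ hx =>
      have : (fun j : J => algebraMap ℚ ℂ ((c • x) j)) =
          algebraMap ℚ ℂ c • fun j => algebraMap ℚ ℂ (x j) := by
        funext j
        simp
      rw [this]
      exact N.smul_mem _ hx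
  · intro v hvN
    rw [hv v hvN]
    refine Submodule.sum_mem _ fun p _ => Submodule.smul_mem _ _ (Submodule.subset_span ?_)
    refine ⟨q p, Submodule.subset_span ⟨p, rfl⟩, ?_⟩
    funext j
    exact (hq p j).symm

end Pool.Agent.Lib.MPf11a48.Tors
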