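import Pool.Agent.Lib.MP_f11a48_ag.helper4.Defs
import Pool.Agent.Lib.MP_f11a48_ag.helper4.Descent

/-! Closed subsets of `GL_ι(ℂ)` and descent of the field of definition. -/

namespace Pool.Agent.Lib.MPf11a48.Tors

open Pool.Agent.Lib.MPf11a48.CM MvPolynomial

variable {ι : Type} [Fintype ι] [DecidableEq ι]

/-- the matrix entries as an assignment of variables -/
def ent (g : GL ι ℂ) : ι × ι → ℂ := fun ij => g.1 ij.1 ij.2

/-- the action of an automorphism of `ℂ` on matrices -/
noncomputable def tw (τ : ℂ ≃+* ℂ) : GL ι ℂ →* GL ι ℂ :=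
  Matrix.GeneralLinearGroup.map (τ : ℂ →+* ℂ)

theorem ent_tw (τ : ℂ ≃+* ℂ) (g : GL ι ℂ) : ent (tw τ g) = fun ij => τ (ent g ij) := rfl

theorem tw_symm_tw (τ : ℂ ≃+* ℂ) (g : GL ι ℂ) : tw τ.symm (tw τ g) = g := by
  apply Units.ext
  ext i j
  change τ.symm (τ (g.1 i j)) = g.1 i j
  exact τ.symm_apply_apply _

theorem tw_tw_symm (τ : ℂ ≃+* ℂ) (g : GL ι ℂ) : tw τ (tw τ.symm g) = g := by
  apply Units.ext
  ext i j
  change τ (τ.symm (g.1 i j)) = g.1 i j
  exact τ.apply_symm_apply _

/-- closed over `ℂ` -/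
def ClosedC (T : Set (GL ι ℂ)) : Prop :=
  ∃ S : Set (MvPolynomial (ι × ι) ℂ), T = {g | ∀ p ∈ S, aeval (ent g) p = 0}

theorem ClosedOver.closedC {K : IntermediateField ℚ ℂ} {T : Set (GL ι ℂ)} (h : ClosedOver K T) :
    ClosedC T := by
  obtain ⟨S, rfl⟩ := h
  refine ⟨(MvPolynomial.map (algebraMap K ℂ)) '' S, ?_⟩
  ext g
  simp only [Set.mem_ofPred_eq, Set.forall_mem_image]
  refine forall₂_congr fun p _ => ?_
  rw [aeval_map_algebraMap]
  rfl

theorem aeval_tw {K : IntermediateField ℚ ℂ} {τ : ℂ ≃+* ℂ} (hτ : FixesField K τ)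
    (p : MvPolynomial (ι × ι) K) (g : GL ι ℂ) : aeval (ent (tw τ g)) p = τ (aeval (ent g) p) := by
  induction p using MvPolynomial.induction_on with
  | C a =>
    simp only [algHom_C]
    exact (hτ _ a.2).symm
  | add p q hp hq => rw [map_add, hp, hq, map_add, map_add]
  | mul_X p i hp => rw [map_mul, hp, map_mul, map_mul, aeval_X, aeval_X, ent_tw]

/-- a `K`-closed set is stable under `Aut(ℂ / K)` -/
theorem ClosedOver.tw_mem {K : IntermediateField ℚ ℂ} {T : Set (GL ι ℂ)} (h : ClosedOver K T)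
    {τ : ℂ ≃+* ℂ} (hτ : FixesField K τ) {g : GL ι ℂ} (hg : g ∈ T) : tw τ g ∈ T := by
  obtain ⟨S, rfl⟩ := h
  intro p hp
  change aeval (ent (tw τ g)) p = 0
  rw [aeval_tw hτ]
  have : aeval (ent g) p = 0 := hg p hp
  rw [this, map_zero]

/-- value of a monomial -/
noncomputable def mon (m : ι × ι →₀ ℕ) (g : GL ι ℂ) : ℂ := ∏ i ∈ m.support, ent g i ^ m i

theorem mon_tw (τ : ℂ ≃+* ℂ) (m : ι × ι →₀ ℕ) (g : GL ι ℂ) : mon m (tw τ g) = τ (mon m g) := by
  simp only [mon, ent_tw, map_prod, map_pow]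

theorem aeval_eq_sum {k : Type} [Field k] [Algebra k ℂ] (p : MvPolynomial (ι × ι) k)
    (g : GL ι ℂ) :
    aeval (ent g) p = ∑ m ∈ p.support, algebraMap k ℂ (coeff m p) * mon m g := by
  rw [aeval_def, eval₂_eq]
  rfl

/-- A closed subset of `GL_ι(ℂ)` which is stable under `Aut(ℂ / K)` is defined over `K`. -/
theorem closedOver_of_stable (K : IntermediateField ℚ ℂ) {T : Set (GL ι ℂ)} (h : ClosedC T)
    (hs : ∀ τ : ℂ ≃+* ℂ, FixesField K τ → ∀ g ∈ T, tw τ g ∈ T) : ClosedOver K T := by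
  classical
  obtain ⟨S, rfl⟩ := h
  set T : Set (GL ι ℂ) := {g | ∀ p ∈ S, aeval (ent g) p = 0} with hT
  refine ⟨{q | ∀ g ∈ T, aeval (ent g) q = 0}, ?_⟩
  apply Set.Subset.antisymm
  · intro g hg q hq
    exact hq g hg
  · intro g hg p hp
    -- the space of coefficient vectors supported on `p.support` vanishing on `T`
    let J := {m // m ∈ p.support}
    let N : Submodule ℂ (J → ℂ) :=
      { carrier := {t | ∀ x ∈ T, ∑ m : J, t m * mon m.1 x = 0}
        add_mem' := by
          intro a b ha hb x hx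
          simp only [Pi.add_apply, add_mul, Finset.sum_add_distrib, ha x hx, hb x hx, add_zero]
        zero_mem' := by
          intro x _
          simp
        smul_mem' := by
          intro a t ht x hx
          simp only [Pi.smul_apply, smul_eq_mul, mul_assoc, ← Finset.mul_sum, ht x hx, mul_zero] }
    have hN : ∀ τ : ℂ ≃+* ℂ, FixesField K τ → ∀ v ∈ N, (fun j => τ (v j)) ∈ N := by
      intro τ hτ v hv x hx
      have h1 := hv _ (hs _ hτ.symm x hx)
      have h2 := congrArg τ h1
      rw [map_sum, map_zero] at h2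
      rw [← h2]
      refine Finset.sum_congr rfl fun m _ => ?_
      rw [map_mul, ← mon_tw, tw_tw_symm]
    obtain ⟨κ, _, a, w, hwN, hwK, hv⟩ := descent_aux K N hN
    have hpN : (fun m : J => coeff m.1 p) ∈ N := by
      intro x hx
      have h1 : aeval (ent x) p = 0 := hx p hp
      rw [aeval_eq_sum] at h1
      rw [← h1]
      exact Finset.sum_coe_sort p.support (fun m => coeff m p * mon m x)
    have h3 := hv _ hpN
    have hzero : ∀ q, ∑ m : J, w q m * mon m.1 g = 0 := by
      intro q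
      let Q : MvPolynomial (ι × ι) K := ∑ m : J, monomial m.1 (⟨w q m, hwK q m⟩ : K)
      have hQ : ∀ x : GL ι ℂ, aeval (ent x) Q = ∑ m : J, w q m * mon m.1 x := by
        intro x
        simp only [Q, map_sum]
        refine Finset.sum_congr rfl fun m _ => ?_
        rw [aeval_monomial]
        rfl
      have : aeval (ent g) Q = 0 := hg Q fun x hx => by
        rw [hQ]
        exact hwN q x hx
      rw [← this, hQ]
    change aeval (ent g) p = 0
    rw [aeval_eq_sum, ← Finset.sum_coe_sort]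
    have h4 : ∀ m : J, algebraMap ℂ ℂ (coeff m.1 p) = ∑ q, coeff (a q).1 p * w q m := by
      intro m
      have := congrFun h3 m
      simpa using this
    calc ∑ m : J, algebraMap ℂ ℂ (coeff m.1 p) * mon m.1 g
        = ∑ m : J, ∑ q, coeff (a q).1 p * w q m * mon m.1 g := by
          refine Finset.sum_congr rfl fun m _ => ?_
          rw [h4, Finset.sum_mul]
      _ = ∑ q, coeff (a q).1 p * ∑ m : J, w q m * mon m.1 g := by
          rw [Finset.sum_comm]
          refine Finset.sum_congr rfl fun q _ => ?_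
          rw [Finset.mul_sum]
          exact Finset.sum_congr rfl fun m _ => by ring
      _ = 0 := by simp [hzero]

theorem closedOver_iff (K : IntermediateField ℚ ℂ) {T : Set (GL ι ℂ)} :
    ClosedOver K T ↔ ClosedC T ∧ ∀ τ : ℂ ≃+* ℂ, FixesField K τ → ∀ g ∈ T, tw τ g ∈ T :=
  ⟨fun h => ⟨h.closedC, fun _ hτ _ hg => h.tw_mem hτ hg⟩, fun h => closedOver_of_stable K h.1 h.2⟩

/-- polynomials in the entries of `g` and of `g⁻¹` -/
theorem clear_inverse {k : Type} [Field k] [Algebra k ℂ]
    (p : MvPolynomial ((ι × ι) ⊕ (ι × ι)) k) :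
    ∃ (M : ℕ) (q : MvPolynomial (ι × ι) k), ∀ g : GL ι ℂ,
      aeval (ent g) q = g.1.det ^ M * aeval (Sum.elim (ent g) (ent g⁻¹)) p := by
  induction p using MvPolynomial.induction_on with
  | C a => exact ⟨0, C a, fun g => by simp⟩
  | add p q hp hq =>
    obtain ⟨M, p', hp'⟩ := hp
    obtain ⟨N, q', hq'⟩ := hq
    have hdet : ∀ g : GL ι ℂ, aeval (ent g) (Matrix.mvPolynomialX ι ι k).det = g.1.det := by
      intro g
      rw [AlgHom.map_det]
      congr 1
      ext i j
      simp [Matrix.mvPolynomialX, ent]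
    refine ⟨M + N, (Matrix.mvPolynomialX ι ι k).det ^ N * p' +
      (Matrix.mvPolynomialX ι ι k).det ^ M * q', fun g => ?_⟩
    simp only [map_add, map_mul, map_pow, hdet, hp', hq']
    ring
  | mul_X p i hp =>
    obtain ⟨M, p', hp'⟩ := hp
    rcases i with i | i
    · refine ⟨M, p' * X i, fun g => ?_⟩
      simp only [map_mul, hp', aeval_X, Sum.elim_inl]
      ring
    · refine ⟨M + 1, p' * (Matrix.mvPolynomialX ι ι k).adjugate i.1 i.2, fun g => ?_⟩
      have hadj : aeval (ent g) ((Matrix.mvPolynomialX ι ι k).adjugate i.1 i.2) =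
          g.1.adjugate i.1 i.2 := by
        have h1 := AlgHom.map_adjugate (aeval (R := k) (ent g)) (Matrix.mvPolynomialX ι ι k)
        have h2 := congrFun (congrFun h1 i.1) i.2
        rw [AlgHom.mapMatrix_apply, Matrix.map_apply] at h2
        rw [h2]
        congr 2
        ext i j
        simp [Matrix.mvPolynomialX, ent]
      have hg : g.1.adjugate i.1 i.2 = g.1.det * ent g⁻¹ i := by
        have h1 : g⁻¹.1 = g.1⁻¹ := Matrix.coe_units_inv g
        have hu : IsUnit g.1.det := (Matrix.isUnit_iff_isUnit_det _).1 g.isUnit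
        simp only [ent, h1, Matrix.inv_def, Matrix.smul_apply, smul_eq_mul]
        rw [← mul_assoc, Ring.mul_inverse_cancel _ hu, one_mul]
      simp only [map_mul, hp', hadj, hg, aeval_X, Sum.elim_inr]
      ring

end Pool.Agent.Lib.MPf11a48.Tors
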