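import Pool.Agent.Lib.MP_f11a48_ag.helper4.Closed

/-! The action of `GL_ι(ℂ)` on sums of tensor spaces; closedness of the conditions `f A = B`. -/

namespace Pool.Agent.Lib.MPf11a48.Tors

open Pool.Agent.Lib.MPf11a48.CM MvPolynomial

variable {ι : Type} [Fintype ι] [DecidableEq ι]

/-- the action of a group element -/
noncomputable def ac {r : ℕ} (s : Fin r → ℕ × ℕ) (g : GL ι ℂ) :
    (SIdx ι s → ℂ) →ₗ[ℂ] (SIdx ι s → ℂ) := act s g.1 g⁻¹.1

theorem ac_mul {r : ℕ} (s : Fin r → ℕ × ℕ) (g h : GL ι ℂ) (v : SIdx ι s → ℂ) :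
    ac s (g * h) v = ac s g (ac s h v) := by
  unfold ac
  rw [← act_mul, mul_inv_rev]
  rfl

theorem ac_one {r : ℕ} (s : Fin r → ℕ × ℕ) (v : SIdx ι s → ℂ) : ac s (1 : GL ι ℂ) v = v := by
  unfold ac
  rw [inv_one]
  exact act_one s v

theorem ac_mul_comp {r : ℕ} (s : Fin r → ℕ × ℕ) (g h : GL ι ℂ) :
    ac s (g * h) = (ac s g).comp (ac s h) := LinearMap.ext fun v => ac_mul s g h v

theorem ac_inv_cancel {r : ℕ} (s : Fin r → ℕ × ℕ) (g : GL ι ℂ) (v : SIdx ι s → ℂ) :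
    ac s g⁻¹ (ac s g v) = v := by rw [← ac_mul, inv_mul_cancel, ac_one]

theorem ac_cancel_inv {r : ℕ} (s : Fin r → ℕ × ℕ) (g : GL ι ℂ) (v : SIdx ι s → ℂ) :
    ac s g (ac s g⁻¹ v) = v := by rw [← ac_mul, mul_inv_cancel, ac_one]

theorem ac_injective {r : ℕ} (s : Fin r → ℕ × ℕ) (g : GL ι ℂ) : Function.Injective (ac s g) :=
  Function.LeftInverse.injective (ac_inv_cancel s g)

theorem map_ac_mul {r : ℕ} (s : Fin r → ℕ × ℕ) (g h : GL ι ℂ)
    (A : Submodule ℂ (SIdx ι s → ℂ)) :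
    A.map (ac s (g * h)) = (A.map (ac s h)).map (ac s g) := by
  rw [ac_mul_comp, Submodule.map_comp]

theorem map_ac_one {r : ℕ} (s : Fin r → ℕ × ℕ) (A : Submodule ℂ (SIdx ι s → ℂ)) :
    A.map (ac s 1) = A := by
  have : ac s (1 : GL ι ℂ) = LinearMap.id := LinearMap.ext fun v => ac_one s v
  rw [this, Submodule.map_id]

theorem map_ac_inv {r : ℕ} (s : Fin r → ℕ × ℕ) {g : GL ι ℂ}
    {A B : Submodule ℂ (SIdx ι s → ℂ)} (h : A.map (ac s g) = B) : B.map (ac s g⁻¹) = A := by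
  rw [← h, ← map_ac_mul, inv_mul_cancel, map_ac_one]

/-- the action commutes with automorphisms of `ℂ` -/
theorem ac_tw {r : ℕ} (s : Fin r → ℕ × ℕ) (τ : ℂ ≃+* ℂ) (g : GL ι ℂ) (v : SIdx ι s → ℂ) :
    ac s (tw τ g) (fun x => τ (v x)) = fun x => τ (ac s g v x) := by
  funext x
  have h := act_map (τ : ℂ →+* ℂ) s g.1 g⁻¹.1 v x
  have h2 : (tw τ g)⁻¹.1 = (g⁻¹.1).map τ := by
    rw [← map_inv]
    rfl
  unfold ac
  rw [h2]
  exact h.symm

theorem finrank_map_ac {r : ℕ} (s : Fin r → ℕ × ℕ) (g : GL ι ℂ)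
    (A : Submodule ℂ (SIdx ι s → ℂ)) :
    Module.finrank ℂ (A.map (ac s g)) = Module.finrank ℂ A :=
  LinearEquiv.finrank_eq (Submodule.equivMapOfInjective _ (ac_injective s g) A).symm

theorem map_eq_iff {r : ℕ} (s : Fin r → ℕ × ℕ) (g : GL ι ℂ)
    {A B : Submodule ℂ (SIdx ι s → ℂ)} (h : Module.finrank ℂ A = Module.finrank ℂ B) :
    A.map (ac s g) = B ↔ ∀ v ∈ A, ac s g v ∈ B := by
  constructor
  · rintro rfl v hv
    exact Submodule.mem_map_of_mem hv
  · intro hle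
    refine Submodule.eq_of_le_of_finrank_eq ?_ (by rw [finrank_map_ac, h])
    rintro _ ⟨v, hv, rfl⟩
    exact hle v hv

/-- intersections of closed sets are closed -/
theorem closedC_iInter {X : Sort*} {T : X → Set (GL ι ℂ)} (h : ∀ x, ClosedC (T x)) :
    ClosedC (⋂ x, T x) := by
  choose S hS using h
  refine ⟨⋃ x, S x, ?_⟩
  ext g
  simp only [Set.mem_iInter, Set.mem_ofPred_eq, Set.mem_iUnion, forall_exists_index]
  constructor
  · intro hg p x hp
    have := hg x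
    rw [hS x] at this
    exact this p hp
  · intro hg x
    rw [hS x]
    exact fun p hp => hg p x hp

/-- a linear condition on `ac s f v` is a closed condition on `f` -/
theorem closedC_functional {r : ℕ} (s : Fin r → ℕ × ℕ) (v lam : SIdx ι s → ℂ) :
    ClosedC {f : GL ι ℂ | ∑ x, lam x * ac s f v x = 0} := by
  let P : MvPolynomial ((ι × ι) ⊕ (ι × ι)) ℂ :=
    ∑ x : SIdx ι s, C (lam x) * ∑ J : TIdx ι (s x.1).1 (s x.1).2,
      ((∏ a, X (Sum.inl (x.2.1 a, J.1 a))) * ∏ b, X (Sum.inr (J.2 b, x.2.2 b))) *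
        C (v ⟨x.1, J⟩)
  have hP : ∀ f : GL ι ℂ, aeval (Sum.elim (ent f) (ent f⁻¹)) P = ∑ x, lam x * ac s f v x := by
    intro f
    simp only [P, map_sum, map_mul, map_prod, aeval_X, Sum.elim_inl, Sum.elim_inr, algHom_C]
    rfl
  obtain ⟨M, q, hq⟩ := clear_inverse P
  refine ⟨{q}, ?_⟩
  ext f
  simp only [Set.mem_ofPred_eq, Set.mem_singleton_iff, forall_eq]
  rw [hq, hP]
  have hu : f.1.det ≠ 0 := ((Matrix.isUnit_iff_isUnit_det _).1 f.isUnit).ne_zero
  simp [hu]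

theorem closedC_map_mem {r : ℕ} (s : Fin r → ℕ × ℕ) (v : SIdx ι s → ℂ)
    (B : Submodule ℂ (SIdx ι s → ℂ)) : ClosedC {f : GL ι ℂ | ac s f v ∈ B} := by
  classical
  have : {f : GL ι ℂ | ac s f v ∈ B} =
      ⋂ (φ : B.dualAnnihilator), {f : GL ι ℂ |
        ∑ x, φ.1 (Pi.single x 1) * ac s f v x = 0} := by
    ext f
    simp only [Set.mem_ofPred_eq, Set.mem_iInter]
    have key : ∀ φ : Module.Dual ℂ (SIdx ι s → ℂ), ∀ u : SIdx ι s → ℂ,
        φ u = ∑ x, φ (Pi.single x 1) * u x := by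
      intro φ u
      conv_lhs => rw [pi_eq_sum_univ' u]
      rw [map_sum]
      refine Finset.sum_congr rfl fun x _ => ?_
      rw [map_smul, smul_eq_mul, mul_comm]
    rw [← Subspace.forall_mem_dualAnnihilator_apply_eq_zero_iff]
    constructor
    · intro h φ
      rw [← key]
      exact h φ.1 φ.2
    · intro h φ hφ
      rw [key]
      exact h ⟨φ, hφ⟩
  rw [this]
  exact closedC_iInter fun φ => closedC_functional s v _

theorem closedC_map_eq {r : ℕ} (s : Fin r → ℕ × ℕ) {A B : Submodule ℂ (SIdx ι s → ℂ)}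
    (h : Module.finrank ℂ A = Module.finrank ℂ B) :
    ClosedC {f : GL ι ℂ | A.map (ac s f) = B} := by
  have : {f : GL ι ℂ | A.map (ac s f) = B} = ⋂ v : A, {f : GL ι ℂ | ac s f v.1 ∈ B} := by
    ext f
    simp only [Set.mem_ofPred_eq, Set.mem_iInter, map_eq_iff s f h, Subtype.forall]
  rw [this]
  exact closedC_iInter fun v => closedC_map_mem s v.1 B

/-- translates of closed sets are closed -/
theorem ClosedC.mul_right {T : Set (GL ι ℂ)} (h : ClosedC T) (c : GL ι ℂ) :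
    ClosedC {g : GL ι ℂ | g * c ∈ T} := by
  obtain ⟨S, rfl⟩ := h
  refine ⟨(fun p => aeval (fun ij : ι × ι => ∑ k, X (ij.1, k) * C (c.1 k ij.2)) p) '' S, ?_⟩
  ext g
  simp only [Set.mem_ofPred_eq, Set.forall_mem_image]
  refine forall₂_congr fun p _ => ?_
  have : aeval (ent (g * c)) p =
      aeval (ent g) (aeval (fun ij : ι × ι => ∑ k, X (ij.1, k) * C (c.1 k ij.2)) p :
        MvPolynomial (ι × ι) ℂ) := by
    rw [← AlgHom.comp_apply]
    congr 1
    ext ij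
    simp [ent, Matrix.mul_apply]
  rw [this]

end Pool.Agent.Lib.MPf11a48.Tors
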