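import Pool.Agent.Lib.MP_f11a48_ag.helper4.Act

/-! Polynomial functions on `GL_ι(ℂ)` as tensors in a direct sum of spaces `(V^∨)^{⊗ k}`. -/

set_option linter.unusedSectionVars false

namespace Pool.Agent.Lib.MPf11a48.Tors

open Pool.Agent.Lib.MPf11a48.CM MvPolynomial

variable {ι : Type} [Fintype ι] [DecidableEq ι]

/-- the shape of `⊕_l (V^∨)^{⊗ k l}` -/
abbrev sh {r : ℕ} (k : Fin r → ℕ) : Fin r → ℕ × ℕ := fun l => (0, k l)

/-- the polynomial function attached to a tensor in `⊕_l (V^∨)^{⊗ k l}` and a choice of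
columns -/
noncomputable def phi {r : ℕ} (k : Fin r → ℕ) (J : (l : Fin r) → Fin (k l) → ι)
    (x : Matrix ι ι ℂ) (t : SIdx ι (sh k) → ℂ) : ℂ :=
  ∑ y : SIdx ι (sh k), t y * ∏ b, x (y.2.2 b) (J y.1 b)

theorem phi_add {r : ℕ} (k : Fin r → ℕ) (J : (l : Fin r) → Fin (k l) → ι)
    (x : Matrix ι ι ℂ) (t u : SIdx ι (sh k) → ℂ) : phi k J x (t + u) = phi k J x t + phi k J x u := by
  simp only [phi, Pi.add_apply, add_mul, Finset.sum_add_distrib]

theorem phi_smul {r : ℕ} (k : Fin r → ℕ) (J : (l : Fin r) → Fin (k l) → ι)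
    (x : Matrix ι ι ℂ) (a : ℂ) (t : SIdx ι (sh k) → ℂ) : phi k J x (a • t) = a * phi k J x t := by
  simp only [phi, Pi.smul_apply, smul_eq_mul, mul_assoc, Finset.mul_sum]

theorem phi_zero {r : ℕ} (k : Fin r → ℕ) (J : (l : Fin r) → Fin (k l) → ι)
    (x : Matrix ι ι ℂ) : phi k J x 0 = 0 := by
  simp [phi]

theorem phi_tw {r : ℕ} (k : Fin r → ℕ) (J : (l : Fin r) → Fin (k l) → ι) (τ : ℂ ≃+* ℂ)
    (x : GL ι ℂ) (t : SIdx ι (sh k) → ℂ) :
    phi k J (tw τ x).1 (fun y => τ (t y)) = τ (phi k J x.1 t) := by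
  simp only [phi, map_sum, map_mul, map_prod]
  rfl

/-- sum over the index set of a shape -/
theorem sum_sidx {r : ℕ} (k : Fin r → ℕ) (F : SIdx ι (sh k) → ℂ) :
    ∑ y, F y = ∑ l : Fin r, ∑ i : Fin (k l) → ι, F ⟨l, (Fin.elim0, i)⟩ := by
  rw [Fintype.sum_sigma]
  refine Finset.sum_congr rfl fun l _ => ?_
  rw [Fintype.sum_prod_type]
  have hu : (Finset.univ : Finset (Fin (sh k l).1 → ι)) = {Fin.elim0} := by
    apply Finset.eq_singleton_iff_unique_mem.2
    exact ⟨Finset.mem_univ _, fun f _ => funext fun a => a.elim0⟩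
  rw [hu, Finset.sum_singleton]

theorem phi_ac {r : ℕ} (k : Fin r → ℕ) (J : (l : Fin r) → Fin (k l) → ι) (g x : GL ι ℂ)
    (t : SIdx ι (sh k) → ℂ) :
    phi k J x.1 (ac (sh k) g t) = phi k J (g⁻¹ * x).1 t := by
  unfold phi
  rw [sum_sidx, sum_sidx]
  refine Finset.sum_congr rfl fun l _ => ?_
  have hac : ∀ i : Fin (k l) → ι, ac (sh k) g t ⟨l, (Fin.elim0, i)⟩ =
      ∑ j : Fin (k l) → ι, (∏ b, g⁻¹.1 (j b) (i b)) * t ⟨l, (Fin.elim0, j)⟩ := by
    intro i
    change (∑ J' : TIdx ι 0 (k l), tens 0 (k l) g.1 g⁻¹.1 (Fin.elim0, i) J' * t ⟨l, J'⟩) = _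
    rw [Fintype.sum_prod_type]
    have hu : (Finset.univ : Finset (Fin 0 → ι)) = {Fin.elim0} := by
      apply Finset.eq_singleton_iff_unique_mem.2
      exact ⟨Finset.mem_univ _, fun f _ => funext fun a => a.elim0⟩
    rw [hu, Finset.sum_singleton]
    refine Finset.sum_congr rfl fun j _ => ?_
    simp only [tens, Finset.univ_eq_empty, Finset.prod_empty, one_mul]
  simp only [hac, Finset.sum_mul]
  rw [Finset.sum_comm]
  refine Finset.sum_congr rfl fun j _ => ?_
  have e : ∀ b, (g⁻¹ * x).1 (j b) (J l b) = ∑ i, g⁻¹.1 (j b) i * x.1 i (J l b) := by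
    intro b
    rw [Units.val_mul, Matrix.mul_apply]
  simp only [e]
  rw [Finset.prod_univ_sum]
  simp only [Fintype.piFinset_univ, Finset.mul_sum, Finset.prod_mul_distrib]
  exact Finset.sum_congr rfl fun i _ => by ring

/-- every polynomial function in the matrix entries is of the form `phi` -/
theorem exists_phi (p : MvPolynomial (ι × ι) ℂ) :
    ∃ (r : ℕ) (k : Fin r → ℕ) (J : (l : Fin r) → Fin (k l) → ι) (t : SIdx ι (sh k) → ℂ),
      ∀ x : GL ι ℂ, phi k J x.1 t = aeval (ent x) p := by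
  classical
  let e : Fin p.support.card ≃ p.support := p.support.equivFin.symm
  let L : Fin p.support.card → List (ι × ι) := fun l => (Finsupp.toMultiset (e l).1).toList
  let k : Fin p.support.card → ℕ := fun l => (L l).length
  let J : (l : Fin p.support.card) → Fin (k l) → ι := fun l b => ((L l).get b).2
  let I : (l : Fin p.support.card) → Fin (k l) → ι := fun l b => ((L l).get b).1
  refine ⟨p.support.card, k, J, fun y => if y.2.2 = I y.1 then coeff (e y.1).1 p else 0,
    fun x => ?_⟩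
  have hmon : ∀ l, (∏ b, x.1 (I l b) (J l b)) = mon (e l).1 x := by
    intro l
    have h1 : (∏ b : Fin (k l), x.1 (I l b) (J l b)) = ((L l).map (ent x)).prod := by
      have : ∀ b : Fin (L l).length, x.1 (I l b) (J l b) = ent x ((L l).get b) := fun b => rfl
      calc (∏ b : Fin (k l), x.1 (I l b) (J l b)) = ∏ b : Fin (L l).length,
            ent x ((L l).get b) := rfl
        _ = _ := by
          simp [Fin.prod_univ_getElem]
    rw [h1, mon]
    have h2 : ((L l).map (ent x)).prod = ((Finsupp.toMultiset (e l).1).map (ent x)).prod := by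
      rw [← Multiset.coe_toList (Finsupp.toMultiset (e l).1), Multiset.map_coe,
        Multiset.prod_coe]
    rw [h2, Finsupp.toMultiset_map, Finsupp.prod_toMultiset]
    rw [Finsupp.prod_mapDomain_index (by simp) (by intros; rw [pow_add])]
    rfl
  have hR : ∑ m ∈ p.support, algebraMap ℂ ℂ (coeff m p) * mon m x =
      ∑ l, algebraMap ℂ ℂ (coeff (e l).1 p) * mon (e l).1 x := by
    rw [← Finset.sum_coe_sort]
    exact (e.sum_comp (fun m => algebraMap ℂ ℂ (coeff m.1 p) * mon m.1 x)).symm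
  unfold phi
  rw [sum_sidx, aeval_eq_sum, hR]
  refine Finset.sum_congr rfl fun l _ => ?_
  rw [Finset.sum_eq_single (I l)]
  · simp only [if_true, hmon]
    rfl
  · intro b _ hb
    simp only
    rw [if_neg hb, zero_mul]
  · intro h
    exact absurd (Finset.mem_univ _) h

end Pool.Agent.Lib.MPf11a48.Tors
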